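import Pool.Agent.U449.BV.VU
import Pool.Agent.U951.TR.NomeE

/-!
# The modular function and its derivatives at all fractions near the coordinates of polynomials on arbitrary sets

Let `c = 1 / ((n + 1) ((d + 1)^(4 n + 1) + 1))`, `κ ≥ 0` and `2 n - c + 2 n κ < δ ≤ 2 n`. Let `p` be a large prime, `q = p ^ (2 n)`,
`f(x, y)` ANY polynomial of bounded degree over the field of `q` elements with a monomial which contains both variables (for
example `f = x y`), let `A`, `B` be ARBITRARY subsets of this field with at least `p ^ δ` elements, and `g`, `h` ARBITRARY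
functions. For all the pairs `(a, b)` in `A × B`, apart from a proportion of at most `p ^ (-ρ)`, and for ALL tuples `α` of `2 n`
integers at a distance of at most `p ^ κ` from the tuple of the least residues of the `2 n` coordinates of `f(a, b) + g(a) + h(b)`:
the points `z_j` with the rational nomes `x_j = α_(2j) / α_(2j+1)` behave as the modular Schanuel conjecture with derivatives
predicts, up to the degree `d`: if the `x_j` are in `[a, b] ⊂ (0, 1)`, then every nonzero integral polynomial of degree at most
`d` in each variable with coefficients of absolute value at most `H ^ A`, `H = max |α_i|`, takes at the `4 n + 1` numbers `π`,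
`log x_j`, `j(z_j)`, `D j(z_j)`, `D² j(z_j)` a value of absolute value larger than `H ^ (-B)`. More generally, this holds for the
values `F(a, b)` of all vector functions of two variables with few coincidences (`RareV`), on arbitrary finite sets.

Since the sets and the functions `g` and `h` are arbitrary, the tuples have no arithmetic structure, and a tuple may be taken by
very many pairs. So the number of the exceptions does not give the result directly. Proof: the starting theorem
`AlmostAllRationalNomes` counts the exceptional tuples of rational numbers with denominators at most `T`; this gives a bound for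
the tuples of integers, not in lowest terms, whose quotients are exceptional for the heights belonging to their own largest
entry (`Pool.Agent.U951.TR.Frac`). Then the tool `Pool.Agent.U449.BV` of helper449: the inequality of Cauchy and Schwarz; for
most pairs `a, a'` the difference `F(a, b) - F(a', b)` is small for few `b`.
-/

set_option autoImplicit false

namespace Pool.Agent.Results.MP_5e64e7_nt.MixedPolynomials

open Finset
open Pool.Agent.U449.BV (RareV OnProductsV on_products_int_saving coordinates)
open Pool.Agent.Results.MP_5e64e7_nt.AlmostAllRationalNomes (numbers)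

/-- the fractions `α_0 / α_1`, `α_2 / α_3`, … -/
noncomputable def nome {n : ℕ} (α : Fin (n * 2) → ℤ) (j : Fin n) : ℚ :=
  (α (finProdFinEquiv (j, 0)) : ℚ) / (α (finProdFinEquiv (j, 1)) : ℚ)

/-- the largest absolute value of the entries -/
def H {k : ℕ} (α : Fin k → ℤ) : ℕ := Finset.univ.sup fun i => (α i).natAbs

/-- If the fractions `x_j` of `α` are in `[a, b]`, then every nonzero polynomial in `4 n + 1` variables of degree at most `d` in
each variable with integer coefficients of absolute value at most `H ^ A` takes at `π`, `log x_j`, `j(z_j)`, `D j(z_j)`, `D² j(z_j)`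
a value of absolute value larger than `H ^ (-B)`. -/
def Free {n : ℕ} (d : ℕ) (a b A B : ℝ) (α : Fin (n * 2) → ℤ) : Prop :=
  (∀ j, a ≤ nome α j ∧ nome α j ≤ b) → ∀ P : MvPolynomial (Option (Fin n × Fin 4)) ℤ, P ≠ 0 → (∀ i, P.degreeOf i ≤ d) →
    (∀ s, |((P.coeff s : ℤ) : ℝ)| ≤ (H α : ℝ) ^ A) → (H α : ℝ) ^ (-B) < ‖MvPolynomial.aeval (numbers (nome α)) P‖

/-- ALL tuples `α` of integers with `|α_i - x_i| ≤ W` for all `i` are free. -/
def Near {n : ℕ} (d : ℕ) (a b A B : ℝ) (W : ℝ) (x : Fin (n * 2) → ℝ) : Prop :=
  ∀ α : Fin (n * 2) → ℤ, (∀ i, |(α i : ℝ) - x i| ≤ W) → Free d a b A B α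

/-- **Theorem.** Let `[a, b] ⊂ (0, 1)`, `n ≥ 1`, `d` and `A ≥ 0`. There is `B` such that for all `κ ≥ 0`, with
`c = 1 / ((n + 1) ((d + 1)^(4 n + 1) + 1))`, the property `Near`, with windows of length `X ^ κ`, holds for almost all values of
vector functions of two variables with `2 n` components and few coincidences, on arbitrary finite sets of at least `X ^ δ`
elements, `2 n - c + 2 n κ < δ ≤ 2 n` (`OnProductsV`).
The tuples of the least residues modulo `p` of the coordinates (with respect to a basis over the field of `p` elements) of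
`f(a, b) + g(a) + h(b)` in a field of `p ^ k` elements are such a function, with `X = p`, for all polynomials `f` over this
field with a monomial which contains both variables, arbitrary functions `g` and `h`, and arbitrary finite subsets. -/
theorem result :
    (∀ (n d : ℕ), 1 ≤ n → ∀ a b A : ℝ, 0 < a → a < b → b < 1 → 0 ≤ A → ∃ B : ℝ, ∀ κ : ℝ, 0 ≤ κ →
      OnProductsV (n * 2) (((n * 2 : ℕ) : ℝ) - 1 / (((n : ℝ) + 1) * (((d : ℝ) + 1) ^ (4 * n + 1) + 1)) + ((n * 2 : ℕ) : ℝ) * κ) κ
        (Near d a b A B)) ∧
    ∀ (p : ℕ) [Fact p.Prime] (k : ℕ) (K : Type) [Field K] [Algebra (ZMod p) K] (e : Module.Basis (Fin k) (ZMod p) K)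
      (d : ℕ) (f : MvPolynomial (Fin 2) K), f.totalDegree ≤ d → (∃ m ∈ f.support, m 0 ≠ 0 ∧ m 1 ≠ 0) →
      ∀ (g h : K → K) (A B : Finset K),
        RareV d A B (fun a b i => (((e.repr (MvPolynomial.eval ![a, b] f + g a + h b) i).val : ℕ) : ℝ)) := by
  refine ⟨fun n d hn a b A ha hab hb hA => ?_, coordinates⟩
  obtain ⟨B, C, -, h, -⟩ := Pool.Agent.U951.TR.Nome.input hn d ha hab hb hA
  refine ⟨B, fun κ hκ => ?_⟩
  have hn1 : (1 : ℝ) ≤ n := by exact_mod_cast hn
  have hc1 : Pool.Agent.U951.TR.Nome.cn n d ≤ ((n * 2 : ℕ) : ℝ) := by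
    have h1 : (1 : ℝ) ≤ ((n : ℝ) + 1) * (((d : ℝ) + 1) ^ (4 * n + 1) + 1) := by
      have h2 : (0 : ℝ) ≤ ((d : ℝ) + 1) ^ (4 * n + 1) := by positivity
      nlinarith
    have h3 : Pool.Agent.U951.TR.Nome.cn n d ≤ 1 := by
      unfold Pool.Agent.U951.TR.Nome.cn
      rw [div_le_one (by linarith)]
      exact h1
    push_cast
    linarith
  have key := on_products_int_saving (k := n * 2) (Ω := Unit)
    (fun _ => Pool.Agent.U951.TR.Frac.Bad (Pool.Agent.U951.TR.Nome.Rel n d) a b A B) (c := Pool.Agent.U951.TR.Nome.cn n d)
    (C := C) hκ (fun _ X hX => h X hX)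
  rw [min_eq_left hc1] at key
  have hFree : ∀ α : Fin (n * 2) → ℤ, α ∉ Pool.Agent.U951.TR.Frac.Bad (Pool.Agent.U951.TR.Nome.Rel n d) a b A B →
      Free d a b A B α := by
    intro α hα
    by_contra hcon
    refine hα ?_
    unfold Free at hcon
    push Not at hcon
    obtain ⟨h1, P, h2, h3, h4, h5⟩ := hcon
    refine ⟨fun j hj => ?_, h1, P, h2, h3, h4, h5⟩
    have h6 := (h1 j).1
    have h7 : nome α j = 0 := by
      unfold nome
      rw [hj, Int.cast_zero, div_zero]
    rw [h7, Rat.cast_zero] at h6
    linarith
  have key2 := key.mono (P' := fun _ : Unit => Near d a b A B) id (fun _ W x _ h' α hα => hFree α (h' α hα))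
  intro δ hδ hδ1 d'
  obtain ⟨ρ, hρ, X₀, hX₀⟩ := key2 δ hδ hδ1 d'
  exact ⟨ρ, hρ, X₀, fun X hX α β S S' F hS hS' hF hR => hX₀ X hX () α β S S' F hS hS' hF hR⟩

end Pool.Agent.Results.MP_5e64e7_nt.MixedPolynomials
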