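import Pool.Agent.U534.PredMod

/-!
# The modular Schanuel conjecture with derivatives: every sequence of integral invariants outside of predictable
exceptional sets

Let `j` be the modular invariant. If `z_1, …, z_n` are points of the upper half-plane for which the numbers
`t_i = j(z_i)` are integers, and `z_i` is not a CM point and no two of the points are equivalent under `GL_2^+(ℚ)`, the
modular Schanuel conjecture with derivatives predicts that the `3 n` numbers `z_i`, `j'(z_i)`, `j''(z_i)` are
algebraically independent, also over the field of all values at special points.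

We consider infinite sequences `t_0, t_1, …` of integers. There are exceptional sets `E_j(t_0, …, t_(j-1))`, which depend only on
the elements chosen before, and numbers `C_j` such that `E_j(t_0, …, t_(j-1))` has at most `C_j` elements in each window
`[a, a + H]` of integers of absolute value at least `(H + 2) ^ C_j` (so it is a set of upper Banach density zero with
`O(N^(1 - c_j))` elements of absolute value at most `N`), with the following property. Let `t` be ANY sequence with
`t_j ∉ E_j(t_0, …, t_(j-1))` for `j ≥ j₀`, and let `z_j` be ANY points of the upper half-plane with `j(z_j) = t_j` for `j ≥ j₀`.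

* Countable fields: let `F` be any countable set of complex numbers, for instance the algebraic closure of the field
  generated by the values `s`, `j(s)`, `j'(s)`, `j''(s)` at ALL special points `s` (it is countable). There are such `E_j` so
  that for every `n` and every nonzero polynomial `P` in `3 n` variables with coefficients in `F`, of any degree, there is `l`,
  which does not depend on the sequence, such that `P` does not vanish at the `3 n` numbers `z_s`, `j'(z_s)`, `j''(z_s)`,
  `s ∈ {s_1, …, s_n}`, for any `n` distinct indices `s_i ≥ max(l, j₀)`.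
* Given degrees and constants: let `δ_0 ≤ δ_1 ≤ ⋯` and `ρ_0, ρ_1, …` be any integers (they may grow as fast as one likes), and let
  `V_0 ⊆ V_1 ⊆ ⋯` be `ℚ`-vector spaces of complex numbers of dimensions at most `ρ_j`. There are such `E_j`, where the `C_j`
  depend only on `δ` and `ρ`, so that for all `l ≥ j₀` the numbers `z_j`, `j'(z_j)`, `j''(z_j)`, `j ≥ l`, satisfy no
  nontrivial polynomial relation in any number of variables, of degree at most `δ_l` in each variable, with coefficients
  in `K V_l`, `K` any number field of degree at most `δ_l`.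

The library theorem `Pool.Agent.Y120.K.winZ2` (`MP_f58a57_nt.DistinctWindows`) treats `k` distinct integers of one short
window; `MP_ede373_nt.AlmostFullWindows` constructs one set of integers with almost full windows. Here all sequences
outside of the sets `E_j` are admitted, with elements of very different sizes in any order.
-/

set_option autoImplicit false

namespace Pool.Agent.Results.MP_5e64e7_nt.PredictableSequences

/-- the normalised Eisenstein series of weight `4` -/
noncomputable def E4 (τ : ℂ) : ℂ :=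
  1 + 240 * ∑' m : ℕ, ((ArithmeticFunction.sigma 3 (m + 1) : ℕ) : ℂ) *
    Complex.exp (2 * (Real.pi : ℂ) * Complex.I * ((m : ℂ) + 1) * τ)

/-- the normalised Eisenstein series of weight `6` -/
noncomputable def E6 (τ : ℂ) : ℂ :=
  1 - 504 * ∑' m : ℕ, ((ArithmeticFunction.sigma 5 (m + 1) : ℕ) : ℂ) *
    Complex.exp (2 * (Real.pi : ℂ) * Complex.I * ((m : ℂ) + 1) * τ)

/-- the modular invariant `j = q⁻¹ + 744 + 196884 q + ⋯` -/
noncomputable def J (τ : ℂ) : ℂ := 1728 * E4 τ ^ 3 / (E4 τ ^ 3 - E6 τ ^ 2)

/-- the numbers `z`, `j'(z)`, `j''(z)` -/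
noncomputable def numbers (z : ℂ) : Fin 3 → ℂ := ![z, deriv J z, deriv (deriv J) z]

/-- the numbers `s`, `j(s)`, `j'(s)`, `j''(s)` at all special points `s` -/
def SpecialValues : Set ℂ :=
  {x | ∃ s : ℂ, 0 < s.im ∧ (∃ a b c : ℤ, a ≠ 0 ∧ a * s ^ 2 + b * s + c = 0) ∧
    (x = s ∨ x = J s ∨ x = deriv J s ∨ x = deriv (deriv J) s)}

/-- `E_j(t_0, …, t_(j-1))` has at most `C_j` elements in each window `[a, a + H]` of integers of absolute value at least
`(H + 2) ^ C_j`. -/
def Sparse (C : ℕ → ℕ) (E : ∀ j, (Fin j → ℤ) → Set ℤ) : Prop :=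
  ∀ (j : ℕ) (τ : Fin j → ℤ) (a : ℤ) (H : ℕ), (∀ t ∈ Set.Icc a (a + H), ((H : ℤ) + 2) ^ C j ≤ |t|) →
    (E j τ ∩ Set.Icc a (a + H)).ncard ≤ C j

/-- `t_j ∉ E_j(t_0, …, t_(j-1))` for `j ≥ j₀` -/
def Avoids (E : ∀ j, (Fin j → ℤ) → Set ℤ) (j₀ : ℕ) (t : ℕ → ℤ) : Prop := ∀ j, j₀ ≤ j → t j ∉ E j fun a => t a

/-- `z_j` is in the upper half-plane and `j(z_j) = t_j`, for `j ≥ j₀` -/
def Above (j₀ : ℕ) (t : ℕ → ℤ) (z : ℕ → ℂ) : Prop := ∀ j, j₀ ≤ j → 0 < (z j).im ∧ J (z j) = t j

section proofs

lemma J_eq : J = Pool.Agent.TH21.MS.jj := by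
  have h4 : E4 = Pool.Agent.TH21.MS.E4 := funext Pool.Agent.Y120.J.E4_same
  have h6 : E6 = Pool.Agent.TH21.MS.E6 := funext Pool.Agent.Y120.J.E6_same
  funext τ
  unfold J Pool.Agent.TH21.MS.jj
  rw [h4, h6]

lemma numbers_mem {t : ℤ} {z : ℂ} (h0 : 0 < z.im) (h : J z = t) : numbers z ∈ Pool.Agent.U534.Tens.Yt t := by
  refine ⟨⟨z, h0⟩, ?_, ?_⟩
  · rw [← J_eq]
    exact h
  · show numbers z = Pool.Agent.Y120.J.jt z
    unfold numbers Pool.Agent.Y120.J.jt
    rw [J_eq]

/-- there are countably many special values -/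
theorem special_countable : SpecialValues.Countable := by
  have h1 : {s : ℂ | ∃ a b c : ℤ, a ≠ 0 ∧ a * s ^ 2 + b * s + c = 0}.Countable := by
    refine (Algebraic.countable ℤ ℂ).mono fun s hs => ?_
    obtain ⟨a, b, c, ha, h⟩ := hs
    refine ⟨Polynomial.C a * Polynomial.X ^ 2 + Polynomial.C b * Polynomial.X + Polynomial.C c, ?_, ?_⟩
    · intro h0
      have h2 := Polynomial.leadingCoeff_quadratic (b := b) (c := c) ha
      rw [h0, Polynomial.leadingCoeff_zero] at h2
      exact ha h2.symm
    · simpa using h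
  have h2 : SpecialValues ⊆ ⋃ f ∈ ({id, J, deriv J, deriv (deriv J)} : Set (ℂ → ℂ)),
      f '' {s : ℂ | ∃ a b c : ℤ, a ≠ 0 ∧ a * s ^ 2 + b * s + c = 0} := by
    rintro x ⟨s, -, hs, hx⟩
    rcases hx with h | h | h | h
    · exact Set.mem_biUnion (x := id) (by simp) ⟨s, hs, h.symm⟩
    · exact Set.mem_biUnion (x := J) (by simp) ⟨s, hs, h.symm⟩
    · exact Set.mem_biUnion (x := deriv J) (by simp) ⟨s, hs, h.symm⟩
    · exact Set.mem_biUnion (x := deriv (deriv J)) (by simp) ⟨s, hs, h.symm⟩
  refine Set.Countable.mono h2 ?_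
  exact Set.Countable.biUnion (Set.toFinite _).countable fun f _ => h1.image f

/-- the algebraic closure of the field of special values is countable -/
theorem closure_countable : {x : ℂ | IsAlgebraic (Subfield.closure SpecialValues) x}.Countable := by
  have h1 : Countable (Subfield.closure SpecialValues) := by
    rw [← Cardinal.mk_le_aleph0_iff]
    refine (Subfield.cardinalMk_closure_le_max _).trans ?_
    exact max_le special_countable.le_aleph0 le_rfl
  exact Algebraic.countable _ _

end proofs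

/-- **Main result.** -/
theorem result :
    -- the algebraic closure of the field of all special values may be taken as set of constants
    {x : ℂ | IsAlgebraic (Subfield.closure SpecialValues) x}.Countable ∧
    -- all polynomials over a countable set of constants
    (∀ F : Set ℂ, F.Countable → ∃ (C : ℕ → ℕ) (E : ∀ j, (Fin j → ℤ) → Set ℤ), Sparse C E ∧
      ∀ (n : ℕ) (P : MvPolynomial (Fin n × Fin 3) ℂ), P ≠ 0 → (∀ s, P.coeff s ∈ F) → ∃ l : ℕ,
        ∀ (j₀ : ℕ) (t : ℕ → ℤ) (z : ℕ → ℂ), Avoids E j₀ t → Above j₀ t z →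
          ∀ s : Fin n → ℕ, Function.Injective s → (∀ i, j₀ ≤ s i ∧ l ≤ s i) →
            MvPolynomial.eval (fun v => numbers (z (s v.1)) v.2) P ≠ 0) ∧
    -- given degrees and constants
    ∀ δ ρ : ℕ → ℕ, Monotone δ → ∃ C : ℕ → ℕ, ∀ V : ℕ → Submodule ℚ ℂ, (∀ j, Module.Finite ℚ (V j)) → Monotone V →
      (∀ j, Module.finrank ℚ (V j) ≤ ρ j) → ∃ E : ∀ j, (Fin j → ℤ) → Set ℤ, Sparse C E ∧
      ∀ (j₀ : ℕ) (t : ℕ → ℤ) (z : ℕ → ℂ), Avoids E j₀ t → Above j₀ t z →
      ∀ l : ℕ, j₀ ≤ l → ∀ K : IntermediateField ℚ ℂ, FiniteDimensional ℚ K → Module.finrank ℚ K ≤ δ l →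
      ∀ P : MvPolynomial (ℕ × Fin 3) ℂ, P ≠ 0 → (∀ v ∈ P.vars, l ≤ v.1) → (∀ v, P.degreeOf v ≤ δ l) →
        (∀ s, P.coeff s ∈ Submodule.span K (V l : Set ℂ)) →
        MvPolynomial.eval (fun v => numbers (z v.1) v.2) P ≠ 0 := by
  refine ⟨closure_countable, fun F hF => ?_, fun δ ρ hδ => ?_⟩
  · obtain ⟨C, E, hE, h⟩ := Pool.Agent.U534.Tens.modular_count F hF
    refine ⟨C, E, hE, fun n P hP hPc => ?_⟩
    obtain ⟨l, hl⟩ := h n P hP hPc
    exact ⟨l, fun j₀ t z ht hz s hs hsl => hl t j₀ ht (fun j => numbers (z j))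
      (fun j hj => numbers_mem (hz j hj).1 (hz j hj).2) s hs hsl⟩
  · obtain ⟨C, h⟩ := Pool.Agent.U534.Tens.modular_pred hδ ρ
    refine ⟨C, fun V hVf hV hVρ => ?_⟩
    obtain ⟨E, hE, hmain⟩ := h V hVf hV hVρ
    exact ⟨E, hE, fun j₀ t z ht hz l hl K hK hKD P hP hPv hPd hPc => hmain t j₀ ht (fun j => numbers (z j))
      (fun j hj => numbers_mem (hz j hj).1 (hz j hj).2) l hl K hK hKD P hP hPv hPd hPc⟩

end Pool.Agent.Results.MP_5e64e7_nt.PredictableSequences
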