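import Pool.Agent.U405.RS.G5
import Pool.Agent.U951.TR.NomeE

/-!
# The modular function and its derivatives at fractions of values of multiplicative functions over thin sets

Let `F_0, F_1, …` be `2 n` positive multiplicative functions of at most polynomial growth which for each `a ≥ 1` are injective at
the powers `p ^ a` of the large primes and at most `M p ^ a` there; for example Euler's function or the sum of the divisors. We
show that for almost all tuples `m` in a product of `2 n` thin sets (shifted primes `p + a_i`, `p ≤ x`, or intervals `(u, u + h]`,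
`x^τ ≤ h ≤ x`) the points `z_j` with the rational nomes `x_j = F_(2j)(m_(2j)) / F_(2j+1)(m_(2j+1))`, for instance
`x = φ(p - 1) / σ(q + 2)` with primes `p`, `q`, behave as the modular Schanuel conjecture with derivatives predicts, up to any
fixed degree `d`: if the `x_j` are in `[a, b] ⊂ (0, 1)`, then the `4 n + 1` numbers `π`, `log x_j`, `j(z_j)`, `D j(z_j)`,
`D² j(z_j)` satisfy no polynomial relation, not even approximately, of degree at most `d` in each variable with coefficients of
absolute value at most `H ^ A`, where `H` is the largest of the numerators and denominators `F_i(m_i)`: the value is larger than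
`H ^ (-B)`.

Proof. The starting theorem `AlmostAllRationalNomes` counts the exceptional tuples of rational numbers with denominators at most
`T`, for polynomials whose heights are bounded in terms of `T`. This gives a bound for the number of the tuples of natural numbers
`≤ X`, not in lowest terms, whose quotients are exceptional for the heights belonging to their own largest entry
(`Pool.Agent.U951.TR.Frac`: common divisors, and counting by halves). The tuples `F_i(m_i)` are taken with large and uneven
multiplicities, so that the size of the exceptional set says nothing about them; they are treated by the tool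
`Pool.Agent.U405.RS` of helper405 (a thin set has few multiples of each `n ≤ x^δ`, Rankin's method, fibres over slabs).
-/

set_option autoImplicit false

namespace Pool.Agent.Results.MP_5e64e7_nt.ThinTuples

open Pool.Agent.U405.RS
open Pool.Agent.Results.MP_5e64e7_nt.AlmostAllRationalNomes (numbers)

/-- the fractions `w_0 / w_1`, `w_2 / w_3`, … -/
noncomputable def nome {n : ℕ} (w : Fin (n * 2) → ℕ) (j : Fin n) : ℚ :=
  (w (finProdFinEquiv (j, 0)) : ℚ) / (w (finProdFinEquiv (j, 1)) : ℚ)

/-- the largest entry -/
def H {k : ℕ} (w : Fin k → ℕ) : ℕ := Finset.univ.sup w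

/-- If the fractions `x_j` of `w` are in `[a, b]`, then every nonzero polynomial in `4 n + 1` variables of degree at most `d` in
each variable with integer coefficients of absolute value at most `H ^ A` takes at `π`, `log x_j`, `j(z_j)`, `D j(z_j)`, `D² j(z_j)`
a value of absolute value larger than `H ^ (-B)`. -/
def Free {n : ℕ} (d : ℕ) (a b A B : ℝ) (w : Fin (n * 2) → ℕ) : Prop :=
  (∀ j, a ≤ nome w j ∧ nome w j ≤ b) → ∀ P : MvPolynomial (Option (Fin n × Fin 4)) ℤ, P ≠ 0 → (∀ i, P.degreeOf i ≤ d) →
    (∀ s, |((P.coeff s : ℤ) : ℝ)| ≤ (H w : ℝ) ^ A) → (H w : ℝ) ^ (-B) < ‖MvPolynomial.aeval (numbers (nome w)) P‖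

/-- **Theorem.** Let `[a, b] ⊂ (0, 1)`, `n ≥ 1`, `d` and `A ≥ 0`. There is `B` such that for all families `F` of `2 n` functions in
the class `PM` and all `U`, with `c = 1 / ((n + 1) ((d + 1)^(4 n + 1) + 1))`, in the sense of `ThinAll c F U` (with a saving of
`(log x)^U`, for almost all `m` in all products of `2 n` sets, each one the set of the shifted primes `p + a_i`, `p ≤ x`, or an
interval `(u, u + h]`, `u ≤ x`, `x^τ ≤ h ≤ x`, whenever `0 < τ ≤ 1`, `2 n τ > 2 n - c`): all `F_i(m_i)` are at least `2` and the
tuple of the `F_i(m_i)` is free. Euler's function, the sum of the divisors and the identity are in the class. -/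
theorem result :
    (∀ (n d : ℕ), 1 ≤ n → ∀ a b A : ℝ, 0 < a → a < b → b < 1 → 0 ≤ A → ∃ B : ℝ,
      ∀ F : Fin (n * 2) → ℕ → ℕ, (∀ i, PM (F i)) → ∀ U : ℕ,
        ThinAll (1 / (((n : ℝ) + 1) * (((d : ℝ) + 1) ^ (4 * n + 1) + 1))) F U
          (fun (_ : Unit) (w : Fin (n * 2) → ℕ) => (∀ i, 2 ≤ w i) ∧ Free d a b A B w)) ∧
    (PM Nat.totient ∧ PM (fun m => ∑ d ∈ m.divisors, d) ∧ PM (fun m => m)) := by
  refine ⟨fun n d hn a b A ha hab hb hA => ?_, examplesT⟩
  obtain ⟨B, C, -, -, h⟩ := Pool.Agent.U951.TR.Nome.input hn d ha hab hb hA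
  refine ⟨B, fun F hF U => thinAll_two (by omega) hF (Pool.Agent.U951.TR.Nome.cn_pos n d) C
    (fun (_ : Unit) (w : Fin (n * 2) → ℕ) => Free d a b A B w) (fun _ X hX => ?_) U⟩
  refine le_trans (Nat.cast_le.2 (Set.ncard_le_ncard ?_ ?_)) (h X hX 2)
  · rintro w ⟨hw, hnot⟩
    refine ⟨hw, fun j => ?_, ?_⟩
    · have := (hw (finProdFinEquiv (j, 1))).1
      have h0 : w (finProdFinEquiv (j, 1)) ≠ 0 := by omega
      show ((w (finProdFinEquiv (j, 1)) : ℕ) : ℤ) ≠ 0
      exact_mod_cast h0
    · have hq : Pool.Agent.U951.TR.Frac.quot (fun i => (w i : ℤ)) = nome w := by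
        funext j
        simp only [Pool.Agent.U951.TR.Frac.quot, nome, Int.cast_natCast]
      have hH : Pool.Agent.U951.TR.Frac.height (fun i => (w i : ℤ)) = H w := by
        simp only [Pool.Agent.U951.TR.Frac.height, H, Int.natAbs_natCast]
      rw [hq, hH]
      unfold Free at hnot
      push Not at hnot
      obtain ⟨h1, P, h2, h3, h4, h5⟩ := hnot
      exact ⟨h1, P, h2, h3, h4, h5⟩
  · apply (Set.Finite.pi' fun _ : Fin (n * 2) => Set.finite_Icc 0 X).subset
    rintro w ⟨hw, -⟩ i
    exact ⟨Nat.zero_le _, (hw i).2⟩

end Pool.Agent.Results.MP_5e64e7_nt.ThinTuples
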